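import Mathlib

/-!
# N06: the limit `δ → 0` on the side of the transform, and the Riemann-Lebesgue lemma
-/

set_option autoImplicit false

open Finset Filter Topology MeasureTheory Complex

namespace Pool.Agent.Lib.MP_bae66e_nt.LL

/-- For `G` continuous on `{re s ≥ 1}`, let `H_δ(t) = (G(1 + δ + it) - A) / (1 + δ + it)`. Then
`∫_{-L}^{L} (1 - |t|/L) e^{itv} H_δ(t) dt → ∫_{-L}^{L} (1 - |t|/L) e^{itv} H_0(t) dt` as `δ → 0+`.

PROOF. Dominated convergence on `[-L, L]` (`intervalIntegral.tendsto_integral_filter_of_dominated_convergence`):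
the map `(δ, t) ↦ H_δ(t)` is continuous on the compact set `[0, 1] × [-L, L]`, hence bounded there,
and `H_δ(t) → H_0(t)` for every `t` (continuity within `{re s ≥ 1}`). -/
lemma transform_limit (G : ℂ → ℂ) (hG : ContinuousOn G {s : ℂ | 1 ≤ s.re}) (A L v : ℝ)
    (hL : 0 < L) :
    Tendsto (fun δ : ℝ => ∫ t in (-L)..L, ((1 - |t| / L : ℝ) : ℂ) *
        Complex.exp (((t * v : ℝ) : ℂ) * I) * ((G (1 + δ + t * I) - A) / (1 + δ + t * I)))
      (𝓝[>] 0)
      (𝓝 (∫ t in (-L)..L, ((1 - |t| / L : ℝ) : ℂ) *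
        Complex.exp (((t * v : ℝ) : ℂ) * I) * ((G (1 + t * I) - A) / (1 + t * I)))) := by
  have hc : Continuous (Function.uncurry (fun (δ t : ℝ) => ((1 - |t| / L : ℝ) : ℂ) *
        Complex.exp (((t * v : ℝ) : ℂ) * I) * ((G (1 + ((max δ 0 : ℝ) : ℂ) + t * I) - A) /
          (1 + ((max δ 0 : ℝ) : ℂ) + t * I)))) := by
    have hs : Continuous (fun p : ℝ × ℝ => 1 + ((max p.1 0 : ℝ) : ℂ) + (p.2 : ℂ) * I) := by
      fun_prop
    have hre : ∀ p : ℝ × ℝ, 1 ≤ (1 + ((max p.1 0 : ℝ) : ℂ) + (p.2 : ℂ) * I).re := by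
      intro p
      have h0 : (0 : ℝ) ≤ max p.1 0 := le_max_right _ _
      have h1 : (1 + ((max p.1 0 : ℝ) : ℂ) + (p.2 : ℂ) * I).re = 1 + max p.1 0 := by
        simp
      rw [h1]
      linarith
    have hGc : Continuous (fun p : ℝ × ℝ => G (1 + ((max p.1 0 : ℝ) : ℂ) + (p.2 : ℂ) * I)) :=
      hG.comp_continuous hs hre
    have hne : ∀ p : ℝ × ℝ, (1 + ((max p.1 0 : ℝ) : ℂ) + (p.2 : ℂ) * I) ≠ 0 := by
      intro p h
      have h1 := hre p
      rw [h] at h1
      simp at h1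
      linarith
    have h2 : Continuous (fun p : ℝ × ℝ => (G (1 + ((max p.1 0 : ℝ) : ℂ) + (p.2 : ℂ) * I) - A) /
        (1 + ((max p.1 0 : ℝ) : ℂ) + (p.2 : ℂ) * I)) :=
      (hGc.sub continuous_const).div hs hne
    have h3 : Continuous (fun p : ℝ × ℝ => ((1 - |p.2| / L : ℝ) : ℂ) *
        Complex.exp (((p.2 * v : ℝ) : ℂ) * I)) := by
      fun_prop
    exact h3.mul h2
  have hcont := intervalIntegral.continuous_parametric_intervalIntegral_of_continuous'
    (μ := volume) hc (-L) L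
  have ht := (hcont.tendsto 0).mono_left (nhdsWithin_le_nhds (s := Set.Ioi (0 : ℝ)))
  simp only [max_self, Complex.ofReal_zero, add_zero] at ht
  refine ht.congr' ?_
  filter_upwards [self_mem_nhdsWithin] with δ hδ
  have hδ' : max δ 0 = δ := max_eq_left (le_of_lt hδ)
  simp only [hδ']

/-- The Riemann-Lebesgue lemma for the function `(1 - |t|/L) H_0(t)` on `[-L, L]`.

PROOF. Mathlib: `tendsto_integral_exp_smul_cocompact` or
`Real.tendsto_integral_exp_smul_cocompact` (`∫ 𝐞(-v w) • f(v) dv → 0` as `w → cocompact`), for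
`f = (1 - |t|/L) H_0(t)` times the indicator of `(-L, L]`; substitute `w = -v / (2 π)`. -/
lemma riemann_lebesgue_L (G : ℂ → ℂ) (hG : ContinuousOn G {s : ℂ | 1 ≤ s.re}) (A L : ℝ)
    (hL : 0 < L) :
    Tendsto (fun v : ℝ => ∫ t in (-L)..L, ((1 - |t| / L : ℝ) : ℂ) *
        Complex.exp (((t * v : ℝ) : ℂ) * I) * ((G (1 + t * I) - A) / (1 + t * I)))
      atTop (𝓝 0) := by
  have key := Real.tendsto_integral_exp_smul_cocompact
    (Set.indicator (Set.Ioc (-L) L) (fun t : ℝ => ((1 - |t| / L : ℝ) : ℂ) *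
      ((G (1 + t * I) - A) / (1 + t * I))))
  have hw : Tendsto (fun v : ℝ => -v / (2 * Real.pi)) atTop (cocompact ℝ) := by
    rw [cocompact_eq_atBot_atTop]
    refine Tendsto.mono_right ?_ le_sup_left
    exact tendsto_neg_atTop_atBot.atBot_div_const (by positivity)
  have h2 := key.comp hw
  refine h2.congr ?_
  intro v
  simp only [Function.comp]
  rw [intervalIntegral.integral_of_le (by linarith), ← integral_indicator measurableSet_Ioc]
  refine integral_congr_ae (Eventually.of_forall ?_)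
  intro t
  simp only [Set.indicator_apply]
  split_ifs with ht
  · rw [Circle.smul_def, Real.fourierChar_apply, smul_eq_mul]
    have e1 : ((2 * Real.pi * -(t * (-v / (2 * Real.pi))) : ℝ) : ℂ) = ((t * v : ℝ) : ℂ) := by
      congr 1
      have hpi : Real.pi ≠ 0 := Real.pi_ne_zero
      field_simp
    rw [e1]
    ring
  · simp

end Pool.Agent.Lib.MP_bae66e_nt.LL
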